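import Pool.Agent.helper55.RI.Spec

/-!
# Project ri (MP_2bd605_lc), module D2: the diagonal set is r.e.
-/

set_option autoImplicit false

namespace Pool.Agent.RI

open Pool.Agent.helper62 Prog Function Pool.Agent.helper81.PL

theorem D2_uu (hR5 : R5_stmt) (hX8 : X8_stmt) :
    Computable (fun t : ℕ × ℕ × W => uu t.1 t.2.1 t.2.2) := by
  have hpre := hR5.1
  have a : Computable (fun t : ℕ × ℕ × W => pre t.2.1 t.2.2) := hpre.comp Computable.snd
  have b : Computable (fun t : ℕ × ℕ × W => pre t.1 (pre t.2.1 t.2.2)) :=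
    hpre.comp (Computable.fst.pair a)
  have c := Computable.comp hX8 (Computable.fst.pair b)
  exact c

theorem D2_lng (hR3 : R3_stmt) (hR5 : R5_stmt) (hX8 : X8_stmt) :
    Computable (fun t : ℕ × ℕ × W => lng t.1 t.2.1 t.2.2) := by
  have h1 : Computable (fun t : ℕ × ℕ × W => t.2.2.length) :=
    hR5.2.1.comp (Computable.snd.comp Computable.snd)
  have h2 : Computable (fun t : ℕ × ℕ × W => 2 ^ (uu t.1 t.2.1 t.2.2).length) :=
    hR5.2.2.1.comp (hR5.2.1.comp (D2_uu hR5 hX8))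
  have h3 := (hR3.2.2.2.2 _ _ _ h1 h2).decide
  exact h3

theorem D2_cm (hR3 : R3_stmt) (hR4 : R4_stmt) (hR5 : R5_stmt) (hX8 : X8_stmt) :
    Computable (fun p : ℕ × W => cm p.1 p.2) := by
  have h0 : Computable (fun x : (ℕ × W) × ℕ => (x.1.1, x.2, x.1.2)) :=
    (Computable.fst.comp Computable.fst).pair
      (Computable.snd.pair (Computable.snd.comp Computable.fst))
  have h1 := (D2_lng hR3 hR5 hX8).comp h0
  have h2 : Computable (fun a : ℕ × W => 2 * a.2.length + 1) :=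
    (Primrec.nat_add.comp (Primrec.nat_mul.comp (Primrec.const 2)
      (Primrec.list_length.comp Primrec.snd)) (Primrec.const 1)).to_comp
  have h3 := hR4 (ℕ × W) (fun a c => lng a.1 c a.2) _ h1 h2
  exact h3

theorem D2_GG (hR3 : R3_stmt) (hR4 : R4_stmt) (hR5 : R5_stmt) (hX8 : X8_stmt) :
    Computable (fun p : ℕ × W => GG p.1 p.2) := by
  have h0 := Computable.fst.pair ((D2_cm hR3 hR4 hR5 hX8).pair Computable.snd)
  have h1 := (D2_uu hR5 hX8).comp h0
  exact h1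

theorem D2_first (hR2 : R2_stmt) (hR3 : R3_stmt) (hR5 : R5_stmt) (hX8 : X8_stmt)
    (A : Set W) (hA : RE A) : REPred (fun t : ℕ × ℕ × W => lng t.1 t.2.1 t.2.2 = false ∧
      ∃ ℓ : List W, (∀ m < ℓ.length, ∀ n < m, ℓ[n]? ≠ ℓ[m]?) ∧ ℓ.length = t.2.1 ∧
      (∀ a ∈ ℓ, a ∈ A ∧ 2 ^ a.length ≤ t.2.2.length) ∧
      ∀ m < ℓ.length, ℓ[m]? ≠ some (uu t.1 t.2.1 t.2.2)) := by
  have hlng := D2_lng hR3 hR5 hX8
  obtain ⟨r2a, r2b, r2c, -, r2e⟩ := hR2
  obtain ⟨r3a, -, r3c, r3d, r3e⟩ := hR3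
  have f1 : ComputablePred (fun t : ℕ × ℕ × W => lng t.1 t.2.1 t.2.2 = false) :=
    r3d _ _ _ _ hlng (Computable.const false)
  have huu := D2_uu hR5 hX8
  have hget : Computable₂ (fun (l : List W) (n : ℕ) => l[n]?) := Computable.list_getElem?
  have q1 : ComputablePred (fun z : (ℕ × ℕ × W) × List W =>
      ∀ m < z.2.length, ∀ n < m, z.2[n]? ≠ z.2[m]?) := by
    have i0 : ComputablePred (fun w : (((ℕ × ℕ × W) × List W) × ℕ) × ℕ =>
        w.1.1.2[w.2]? ≠ w.1.1.2[w.1.2]?) := by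
      have c0 : Computable (fun w : (((ℕ × ℕ × W) × List W) × ℕ) × ℕ => w.1.1.2) :=
        Computable.snd.comp (Computable.fst.comp Computable.fst)
      exact (r3d _ _ _ _ (hget.comp c0 Computable.snd)
        (hget.comp c0 (Computable.snd.comp Computable.fst))).not
    have i1 : ComputablePred (fun y : ((ℕ × ℕ × W) × List W) × ℕ =>
        ∀ n < y.2, y.1.2[n]? ≠ y.1.2[y.2]?) :=
      (r3c (((ℕ × ℕ × W) × List W) × ℕ) (fun y n => y.1.2[n]? ≠ y.1.2[y.2]?) (fun y => y.2) i0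
        Computable.snd).1
    exact (r3c ((ℕ × ℕ × W) × List W) (fun z m => ∀ n < m, z.2[n]? ≠ z.2[m]?)
      (fun z => z.2.length) i1 (Computable.list_length.comp Computable.snd)).1
  have q2 : ComputablePred (fun z : (ℕ × ℕ × W) × List W => z.2.length = z.1.2.1) :=
    r3d _ _ _ _ (Computable.list_length.comp Computable.snd)
      (Computable.fst.comp (Computable.snd.comp Computable.fst))
  have q3 : REPred (fun z : (ℕ × ℕ × W) × List W =>
      ∀ a ∈ z.2, a ∈ A ∧ 2 ^ a.length ≤ z.1.2.2.length) := by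
    have i0 : REPred (fun y : ((ℕ × ℕ × W) × List W) × W => y.2 ∈ A) :=
      r2b _ _ _ _ Computable.snd hA
    have i1 : ComputablePred (fun y : ((ℕ × ℕ × W) × List W) × W =>
        2 ^ y.2.length ≤ y.1.1.2.2.length) := by
      have c1 : Computable (fun y : ((ℕ × ℕ × W) × List W) × W => y.1.1.2.2.length) :=
        hR5.2.1.comp (Computable.snd.comp (Computable.snd.comp
          (Computable.fst.comp Computable.fst)))
      have c2 : Computable (fun y : ((ℕ × ℕ × W) × List W) × W => 2 ^ y.2.length) :=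
        hR5.2.2.1.comp (hR5.2.1.comp Computable.snd)
      exact (r3e _ _ _ c1 c2).not.of_eq (fun y => not_lt)
    exact r2e _ _ (fun (z : (ℕ × ℕ × W) × List W) (a : W) =>
      a ∈ A ∧ 2 ^ a.length ≤ z.1.2.2.length) (fun z => z.2) (r2a _ _ _ i0 i1.to_re).1
      Computable.snd
  have q4 : ComputablePred (fun z : (ℕ × ℕ × W) × List W =>
      ∀ m < z.2.length, z.2[m]? ≠ some (uu z.1.1 z.1.2.1 z.1.2.2)) := by
    have c3 : Computable (fun y : ((ℕ × ℕ × W) × List W) × ℕ => y.1.1) :=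
      Computable.fst.comp Computable.fst
    have c4 := huu.comp c3
    have c5 := Computable.option_some.comp c4
    have i0 : ComputablePred (fun y : ((ℕ × ℕ × W) × List W) × ℕ =>
        y.1.2[y.2]? ≠ some (uu y.1.1.1 y.1.1.2.1 y.1.1.2.2)) :=
      (r3d _ _ _ _ (hget.comp (Computable.snd.comp Computable.fst) Computable.snd) c5).not
    exact (r3c ((ℕ × ℕ × W) × List W)
      (fun z m => z.2[m]? ≠ some (uu z.1.1 z.1.2.1 z.1.2.2))
      (fun z => z.2.length) i0 (Computable.list_length.comp Computable.snd)).1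
  have q : REPred (fun z : (ℕ × ℕ × W) × List W =>
      (∀ m < z.2.length, ∀ n < m, z.2[n]? ≠ z.2[m]?) ∧ z.2.length = z.1.2.1 ∧
      (∀ a ∈ z.2, a ∈ A ∧ 2 ^ a.length ≤ z.1.2.2.length) ∧
      ∀ m < z.2.length, z.2[m]? ≠ some (uu z.1.1 z.1.2.1 z.1.2.2)) :=
    (r2a _ _ _ q1.to_re (r2a _ _ _ q2.to_re (r2a _ _ _ q3 q4.to_re).1).1).1
  exact (r2a _ _ _ f1.to_re (r2c _ _ (fun (t : ℕ × ℕ × W) (ℓ : List W) =>
    (∀ m < ℓ.length, ∀ n < m, ℓ[n]? ≠ ℓ[m]?) ∧ ℓ.length = t.2.1 ∧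
      (∀ a ∈ ℓ, a ∈ A ∧ 2 ^ a.length ≤ t.2.2.length) ∧
      ∀ m < ℓ.length, ℓ[m]? ≠ some (uu t.1 t.2.1 t.2.2)) q)).1

theorem D2_second (hR2 : R2_stmt) (hR3 : R3_stmt) (hR4 : R4_stmt) (hR5 : R5_stmt)
    (hX8 : X8_stmt) (hK1 : K1_stmt) :
    REPred (fun t : ℕ × ℕ × W => lng t.1 t.2.1 t.2.2 = true ∧
      (∀ n < enc t.2.2, enc (dw n) < enc t.2.2 → GG t.1 (dw n) ≠ GG t.1 t.2.2) ∧
      (t.2.2 ∈ KS ∨ ∃ x' : W, enc t.2.2 < enc x' ∧ GG t.1 x' = GG t.1 t.2.2)) := by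
  have hGG := D2_GG hR3 hR4 hR5 hX8
  have hlng := D2_lng hR3 hR5 hX8
  obtain ⟨r2a, r2b, r2c, -, -⟩ := hR2
  obtain ⟨r3a, -, r3c, r3d, r3e⟩ := hR3
  obtain ⟨-, -, -, henc, hdw, -, -⟩ := hR5
  have s1 : ComputablePred (fun t : ℕ × ℕ × W => lng t.1 t.2.1 t.2.2 = true) :=
    r3d _ _ _ _ hlng (Computable.const true)
  have s2 : ComputablePred (fun t : ℕ × ℕ × W =>
      ∀ n < enc t.2.2, enc (dw n) < enc t.2.2 → GG t.1 (dw n) ≠ GG t.1 t.2.2) := by
    have cx : Computable (fun y : (ℕ × ℕ × W) × ℕ => y.1.2.2) :=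
      Computable.snd.comp (Computable.snd.comp Computable.fst)
    have cd : Computable (fun y : (ℕ × ℕ × W) × ℕ => dw y.2) := hdw.comp Computable.snd
    have ci : Computable (fun y : (ℕ × ℕ × W) × ℕ => y.1.1) :=
      Computable.fst.comp Computable.fst
    have i0 : ComputablePred (fun y : (ℕ × ℕ × W) × ℕ => enc (dw y.2) < enc y.1.2.2) :=
      r3e _ _ _ (henc.comp cd) (henc.comp cx)
    have g1 := hGG.comp (ci.pair cd)
    have g2 := hGG.comp (ci.pair cx)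
    have i1 := r3d _ _ _ _ g1 g2
    simp only at i1
    have i2 : ComputablePred (fun y : (ℕ × ℕ × W) × ℕ =>
        enc (dw y.2) < enc y.1.2.2 → GG y.1.1 (dw y.2) ≠ GG y.1.1 y.1.2.2) :=
      (r3a _ _ _ i0.not i1.not).2.1.of_eq (fun y => by
        constructor
        · rintro (h | h) h'
          · exact (h h').elim
          · exact h
        · intro h
          by_cases h' : enc (dw y.2) < enc y.1.2.2
          · exact Or.inr (h h')
          · exact Or.inl h')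
    exact (r3c (ℕ × ℕ × W) (fun t n => enc (dw n) < enc t.2.2 → GG t.1 (dw n) ≠ GG t.1 t.2.2)
      (fun t => enc t.2.2) i2 (henc.comp (Computable.snd.comp Computable.snd))).1
  have s3 : REPred (fun t : ℕ × ℕ × W =>
      t.2.2 ∈ KS ∨ ∃ x' : W, enc t.2.2 < enc x' ∧ GG t.1 x' = GG t.1 t.2.2) := by
    have i0 : REPred (fun t : ℕ × ℕ × W => t.2.2 ∈ KS) :=
      r2b _ _ _ _ (Computable.snd.comp Computable.snd) hK1.1
    have cx : Computable (fun y : (ℕ × ℕ × W) × W => y.1.2.2) :=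
      Computable.snd.comp (Computable.snd.comp Computable.fst)
    have ci : Computable (fun y : (ℕ × ℕ × W) × W => y.1.1) :=
      Computable.fst.comp Computable.fst
    have i1 : ComputablePred (fun y : (ℕ × ℕ × W) × W => enc y.1.2.2 < enc y.2) :=
      r3e _ _ _ (henc.comp cx) (henc.comp Computable.snd)
    have g1 := hGG.comp (ci.pair Computable.snd)
    have g2 := hGG.comp (ci.pair cx)
    have i2 := r3d _ _ _ _ g1 g2
    simp only at i2
    have i3 : REPred (fun t : ℕ × ℕ × W =>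
        ∃ x' : W, enc t.2.2 < enc x' ∧ GG t.1 x' = GG t.1 t.2.2) :=
      r2c _ _ (fun (t : ℕ × ℕ × W) (x' : W) => enc t.2.2 < enc x' ∧ GG t.1 x' = GG t.1 t.2.2)
        (r3a _ _ _ i1 i2).1.to_re
    exact (r2a _ _ _ i0 i3).2
  exact (r2a _ _ _ s1.to_re (r2a _ _ _ s2.to_re s3).1).1

theorem D2 (hR2 : R2_stmt) (hR3 : R3_stmt) (hR4 : R4_stmt) (hR5 : R5_stmt) (hX8 : X8_stmt)
    (hK1 : K1_stmt) : D2_stmt := by
  intro A hA
  have h1 := D2_first hR2 hR3 hR5 hX8 A hA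
  have h2 := D2_second hR2 hR3 hR4 hR5 hX8 hK1
  have hDD : REPred (fun t : ℕ × ℕ × W => DD A t.1 t.2.1 t.2.2) := (hR2.1 _ _ _ h1 h2).2
  have h3 : REPred (fun y : W × (ℕ × ℕ × W) => DD A y.2.1 y.2.2.1 y.2.2.2) :=
    hR2.2.1 _ _ (fun y : W × (ℕ × ℕ × W) => y.2) _ Computable.snd hDD
  have h4 : ComputablePred (fun y : W × (ℕ × ℕ × W) => y.1 = pre y.2.1 (pre y.2.2.1 y.2.2.2)) := by
    have hpre := hR5.1
    have a : Computable (fun t : ℕ × ℕ × W => pre t.2.1 t.2.2) := hpre.comp Computable.snd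
    have b : Computable (fun t : ℕ × ℕ × W => pre t.1 (pre t.2.1 t.2.2)) :=
      hpre.comp (Computable.fst.pair a)
    exact hR3.2.2.2.1 _ _ _ _ Computable.fst (b.comp Computable.snd)
  have h5 := hR2.2.2.1 W (ℕ × ℕ × W)
    (fun w t => w = pre t.1 (pre t.2.1 t.2.2) ∧ DD A t.1 t.2.1 t.2.2)
    (hR2.1 _ _ _ h4.to_re h3).1
  refine h5.of_eq (fun w => ?_)
  constructor
  · rintro ⟨⟨i, c, x⟩, h⟩
    exact ⟨i, c, x, h⟩
  · rintro ⟨i, c, x, h⟩
    exact ⟨⟨i, c, x⟩, h⟩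

end Pool.Agent.RI
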