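import Pool.Agent.helper55.RI.SpecV

/-!
# Project rg (MP_2bd605_lc), module V3: code words
-/

set_option autoImplicit false
set_option linter.unusedVariables false

namespace Pool.Agent.RI

open Pool.Agent.helper62 Prog Function Pool.Agent.helper81.PL

/-- the step of `toks` -/
def V3_st (p : ℕ × List ℕ) (b : Bool) : ℕ × List ℕ := bif b then (p.1 + 1, p.2) else (0, p.1 :: p.2)

theorem V3_toks_eq (w : W) : toks w = (w.foldl V3_st (0, [])).2 := rfl

theorem V3_sz (p : ℕ × List ℕ) (b : Bool) : sz (V3_st p b) ≤ sz p + 2 := by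
  obtain ⟨n, l⟩ := p
  cases b
  · simp only [V3_st, cond_false, sz_prod, sz_cons, sz_nat]
    omega
  · simp only [V3_st, cond_true, sz_prod, sz_nat]
    omega

@[fun_prop] theorem V3_pt_toks : PT toks := by
  have h : PT (fun w : W => w.foldl ((fun _ : W => V3_st) w) ((fun _ : W => ((0, []) : ℕ × List ℕ)) w)) := by
    refine pt_foldl_add (c := fun _ => 2) (l := fun w : W => w)
      (g := fun _ : W => ((0, []) : ℕ × List ℕ)) (s := fun _ : W => V3_st) (by fun_prop)
      (by fun_prop) ?_ (PB.const 2) (fun _ x b _ => V3_sz x b)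
    unfold V3_st
    fun_prop
  have h2 := PT.comp (g := (Prod.snd : ℕ × List ℕ → List ℕ)) pt_snd h
  exact h2

theorem V3_pt_parse : PT parse := by
  unfold parse insOf
  fun_prop

/-- the word with the tokens `l` -/
def V3_enc : List ℕ → W
  | [] => []
  | a :: l => V3_enc l ++ (List.replicate a true ++ [false])

theorem V3_trues (a c : ℕ) (l : List ℕ) :
    (List.replicate a true).foldl V3_st (c, l) = (c + a, l) := by
  induction a generalizing c with
  | zero => rfl
  | succ a ih =>
    rw [List.replicate_succ, List.foldl_cons]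
    change (List.replicate a true).foldl V3_st (c + 1, l) = _
    rw [ih]
    congr 1
    omega

theorem V3_enc_fold (l : List ℕ) : (V3_enc l).foldl V3_st (0, []) = (0, l) := by
  induction l with
  | nil => rfl
  | cons a l ih =>
    rw [V3_enc, List.foldl_append, List.foldl_append, ih, V3_trues, zero_add]
    rfl

theorem V3_toks_enc (l : List ℕ) : toks (V3_enc l) = l := by
  rw [V3_toks_eq, V3_enc_fold]

/-- the tokens of an instruction -/
def V3_it (i : Ins) : List ℕ :=
  [i.1, i.2.1, bif i.2.2.1 then 1 else 0, i.2.2.2.1, i.2.2.2.2.1, i.2.2.2.2.2]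

theorem V3_ins (L : List Ins) (a b : ℕ) (j : ℕ) (hj : j < L.length) :
    insOf (a :: b :: L.flatMap V3_it) j = L[j] := by
  have key : ∀ (L : List Ins) (j : ℕ) (hj : j < L.length),
      ((L.flatMap V3_it).getD (6 * j) 0, (L.flatMap V3_it).getD (6 * j + 1) 0,
        leb 1 ((L.flatMap V3_it).getD (6 * j + 2) 0), (L.flatMap V3_it).getD (6 * j + 3) 0,
        (L.flatMap V3_it).getD (6 * j + 4) 0, (L.flatMap V3_it).getD (6 * j + 5) 0) = L[j] := by
    intro L
    induction L with
    | nil => intro j hj; simp at hj
    | cons i L ih =>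
      intro j hj
      rw [List.flatMap_cons]
      cases j with
      | zero =>
        obtain ⟨op, k, b, j0, j1, j2⟩ := i
        cases b <;> simp [V3_it, leb]
      | succ j =>
        have h1 := ih j (by simpa using hj)
        rw [List.getElem_cons_succ, ← h1]
        have e : ∀ r, (V3_it i ++ L.flatMap V3_it).getD (6 * (j + 1) + r) 0 =
            (L.flatMap V3_it).getD (6 * j + r) 0 := by
          intro r
          have h2 : 6 * (j + 1) + r = (6 * j + r) + 1 + 1 + 1 + 1 + 1 + 1 := by ring
          rw [h2]
          simp only [V3_it, List.cons_append, List.nil_append, List.getD_cons_succ]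
        have e0 := e 0
        rw [add_zero, add_zero] at e0
        rw [e0, e 1, e 2, e 3, e 4, e 5]
  have h := key L j hj
  rw [← h]
  unfold insOf
  rfl

theorem V3_surj (q : List Ins × ℕ × ℕ) : ∃ p, parse p = q := by
  obtain ⟨L, a, b⟩ := q
  refine ⟨V3_enc (L.length :: a :: b :: L.flatMap V3_it), ?_⟩
  unfold parse
  rw [V3_toks_enc]
  refine Prod.ext ?_ rfl
  change (List.range L.length).map (insOf (a :: b :: L.flatMap V3_it)) = L
  apply List.ext_getElem
  · simp
  · intro j h1 h2
    rw [List.getElem_map, List.getElem_range]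
    exact V3_ins L a b j h2

theorem V3_bd (w : W) : ∀ (c M : ℕ) (l : List ℕ), c + w.length ≤ M → (∀ x ∈ l, x ≤ M) →
    ∀ x ∈ (w.foldl V3_st (c, l)).2, x ≤ M := by
  induction w with
  | nil => intro c M l _ hl x hx; exact hl x hx
  | cons b w ih =>
    intro c M l hc hl x hx
    rw [List.length_cons] at hc
    rw [List.foldl_cons] at hx
    cases b
    · refine ih 0 M (c :: l) (by omega) ?_ x hx
      intro y hy
      rw [List.mem_cons] at hy
      rcases hy with rfl | hy
      · omega
      · exact hl y hy
    · exact ih (c + 1) M l (by omega) hl x hx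

theorem V3_getD (l : List ℕ) (n M : ℕ) (h : ∀ x ∈ l, x ≤ M) : l.getD n 0 ≤ M := by
  by_cases hn : n < l.length
  · rw [List.getD_eq_getElem _ _ hn]
    exact h _ (List.getElem_mem hn)
  · rw [List.getD_eq_default _ _ (by omega)]
    omega

theorem V3 : V3_stmt := by
  refine ⟨V3_pt_parse, V3_surj, fun p => ?_⟩
  change (toks p).getD 2 0 ≤ p.length
  apply V3_getD
  rw [V3_toks_eq]
  exact V3_bd p 0 p.length [] (by omega) (by simp)

end Pool.Agent.RI
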